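import Mathlib

/-!
# Every wedge of spheres is an avalanche complex

For every finite wedge of spheres `X` we build a weakly connected digraph and a starting
configuration whose avalanche complex (parallel-firing sandpile dynamics) has geometric
realisation homotopy equivalent to `X`.
-/

namespace Pool.Agent.Results.MP_fb4947_gt.WedgeRealization

/-! ### Parallel-firing sandpile dynamics on a finite digraph -/

section Dynamics

variable {V : Type} [Fintype V]

open Classical in
/-- The out-degree of a vertex. A vertex of out-degree `0` is a sink. -/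
noncomputable def outDeg (G : Digraph V) (v : V) : ℕ :=
  (Finset.univ.filter fun w => G.Adj v w).card

open Classical in
/-- The firing set of a configuration `c`: all non-sink vertices `v` that are unstable,
i.e. carry at least `outDeg G v` grains. -/
noncomputable def firingSet (G : Digraph V) (c : V → ℕ) : Finset V :=
  Finset.univ.filter fun v => outDeg G v ≠ 0 ∧ outDeg G v ≤ c v

open Classical in
/-- One step of the parallel dynamics: every vertex of the firing set sends one grain along each
of its outgoing arcs. -/
noncomputable def step (G : Digraph V) (c : V → ℕ) : V → ℕ := fun v =>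
  (c v - if v ∈ firingSet G c then outDeg G v else 0) +
    ((firingSet G c).filter fun u => G.Adj u v).card

/-- The configuration at time `t`, starting from `c₀`. -/
noncomputable def conf (G : Digraph V) (c₀ : V → ℕ) (t : ℕ) : V → ℕ := (step G)^[t] c₀

/-- The avalanche complex: its simplices are the nonempty subsets of the firing sets
`σ_t`, `t ≥ 0`. -/
noncomputable def avalancheComplex (G : Digraph V) (c₀ : V → ℕ) :
    PreAbstractSimplicialComplex V where
  faces := {s | s.Nonempty ∧ ∃ t : ℕ, s ⊆ firingSet G (conf G c₀ t)}
  isRelLowerSet_faces := by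
    rintro s ⟨hs, t, ht⟩
    exact ⟨hs, fun s' hs' hne => ⟨hne, t, fun x hx => ht (hs' hx)⟩⟩

theorem mem_avalancheComplex (G : Digraph V) (c₀ : V → ℕ) (s : Finset V) :
    s ∈ avalancheComplex G c₀ ↔ s.Nonempty ∧ ∃ t : ℕ, s ⊆ firingSet G (conf G c₀ t) := Iff.rfl

open Classical in
/-- The geometric realisation of a finite simplicial complex, with the topology induced from
`V → ℝ`: functions `x ≥ 0` with total mass `1` whose support is a simplex. -/
def realization (K : PreAbstractSimplicialComplex V) : Set (V → ℝ) :=
  {x | (∀ v, 0 ≤ x v) ∧ ∑ v, x v = 1 ∧ (Finset.univ.filter fun v => x v ≠ 0) ∈ K}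

end Dynamics

/-! ### Wedges of spheres -/

/-- The unit sphere `S^d` in Euclidean space `ℝ^(d+1)`. -/
abbrev Sph (d : ℕ) : Type := Metric.sphere (0 : EuclideanSpace ℝ (Fin (d + 1))) 1

/-- The base point `(1,0,…,0)` of `S^d`. -/
noncomputable def basePt (d : ℕ) : Sph d := ⟨EuclideanSpace.single 0 1, by simp⟩

/-- The disjoint union of a point and of the spheres `S^(d i)`, `i < m`. -/
abbrev PreWedge {m : ℕ} (d : Fin m → ℕ) : Type := Unit ⊕ (Σ i : Fin m, Sph (d i))

/-- The extra point and the base points of the spheres. -/
def IsBase {m : ℕ} (d : Fin m → ℕ) : PreWedge d → Prop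
  | Sum.inl _ => True
  | Sum.inr ⟨i, y⟩ => y = basePt (d i)

/-- The equivalence relation identifying all base points (and the extra point). -/
def wedgeSetoid {m : ℕ} (d : Fin m → ℕ) : Setoid (PreWedge d) where
  r a b := a = b ∨ (IsBase d a ∧ IsBase d b)
  iseqv := by
    refine ⟨fun a => Or.inl rfl, ?_, ?_⟩
    · rintro a b (h | h)
      · exact Or.inl h.symm
      · exact Or.inr ⟨h.2, h.1⟩
    · rintro a b c (rfl | h) (rfl | h')
      · exact Or.inl rfl
      · exact Or.inr h'
      · exact Or.inr h
      · exact Or.inr ⟨h.1, h'.2⟩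

/-- The wedge `S^(d 0) ∨ ⋯ ∨ S^(d (m-1))` with the quotient topology; it is a point if `m = 0`. -/
def Wedge {m : ℕ} (d : Fin m → ℕ) : Type := Quotient (wedgeSetoid d)

instance {m : ℕ} (d : Fin m → ℕ) : TopologicalSpace (Wedge d) :=
  inferInstanceAs (TopologicalSpace (Quotient (wedgeSetoid d)))

/-! ### The pulse-path digraph -/

section Construction

variable {T : Type} [Fintype T] {k : ℕ} (F : Fin (k + 1) → Finset T)

/-- `v` lies in the facet with number `t`. -/
def InF (t : ℕ) (v : T) : Prop := ∃ j : Fin (k + 1), (j : ℕ) = t ∧ v ∈ F j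

/-- Vertices: pulse vertices `p_0, …, p_k`, target vertices `v : T`, and a sink. -/
abbrev PV (T : Type) (k : ℕ) : Type := Fin (k + 1) ⊕ Option T

/-- The pulse-path digraph: `p_i → p_(i+1)`, `p_i → v` for `v` in facet `i+1`,
`p_k → sink`, `v → sink`. -/
def pulse : Digraph (PV T k) where
  Adj
    | Sum.inl i, Sum.inl j => (i : ℕ) + 1 = j
    | Sum.inl i, Sum.inr (some v) => InF F ((i : ℕ) + 1) v
    | Sum.inl i, Sum.inr none => (i : ℕ) = k
    | Sum.inr (some _), Sum.inr none => True
    | Sum.inr _, _ => False

open Classical in
/-- The expected configuration at time `t` away from the sink. -/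
noncomputable def pred (t : ℕ) : PV T k → ℕ
  | Sum.inl j => if (j : ℕ) < t then 0 else if (j : ℕ) = t then outDeg (pulse F) (Sum.inl j)
      else outDeg (pulse F) (Sum.inl j) - 1
  | Sum.inr (some v) => if InF F t v then 1 else 0
  | Sum.inr none => 0

/-- The expected firing set at time `t`. -/
def Fires (t : ℕ) : PV T k → Prop
  | Sum.inl j => (j : ℕ) = t
  | Sum.inr (some v) => InF F t v
  | Sum.inr none => False

theorem outDeg_pulse_pos (j : Fin (k + 1)) : 0 < outDeg (pulse F) (Sum.inl j) := by
  classical
  unfold outDeg
  rw [Finset.card_pos]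
  by_cases h : (j : ℕ) = k
  · refine ⟨Sum.inr none, ?_⟩
    rw [Finset.mem_filter]
    exact ⟨Finset.mem_univ _, h⟩
  · refine ⟨Sum.inl ⟨(j : ℕ) + 1, by omega⟩, ?_⟩
    rw [Finset.mem_filter]
    exact ⟨Finset.mem_univ _, rfl⟩

theorem outDeg_target (v : T) : outDeg (pulse F) (Sum.inr (some v)) = 1 := by
  classical
  unfold outDeg
  rw [Finset.card_eq_one]
  refine ⟨Sum.inr none, ?_⟩
  ext w
  rw [Finset.mem_filter]
  rcases w with i | (_ | w) <;> simp [pulse]

theorem outDeg_sink : outDeg (pulse F) (Sum.inr none) = 0 := by
  classical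
  unfold outDeg
  rw [Finset.card_eq_zero]
  ext w
  rw [Finset.mem_filter]
  rcases w with i | (_ | w) <;> simp [pulse]

/-- If the configuration agrees with `pred t` off the sink, the firing set is the expected one. -/
theorem mem_firing_of_pred {t : ℕ} {c : PV T k → ℕ}
    (hc : ∀ u, u ≠ Sum.inr none → c u = pred F t u) (u : PV T k) :
    u ∈ firingSet (pulse F) c ↔ Fires F t u := by
  classical
  unfold firingSet
  rw [Finset.mem_filter]
  rcases u with j | (_ | v)
  · rw [hc _ (by simp)]
    have h := outDeg_pulse_pos F j
    simp only [Finset.mem_univ, true_and, pred, Fires]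
    constructor
    · rintro ⟨-, h2⟩
      by_contra hne
      by_cases hlt : (j : ℕ) < t
      · simp [hlt] at h2; omega
      · simp [hlt, hne] at h2; omega
    · intro hjt
      refine ⟨h.ne', ?_⟩
      simp [hjt]
  · simp [outDeg_sink, Fires]
  · rw [hc _ (by simp)]
    simp only [Finset.mem_univ, true_and, pred, Fires, outDeg_target]
    by_cases hv : InF F t v <;> simp [hv]

theorem step_pred {t : ℕ} {c : PV T k → ℕ}
    (hc : ∀ u, u ≠ Sum.inr none → c u = pred F t u) (u : PV T k) (hu : u ≠ Sum.inr none) :
    step (pulse F) c u = pred F (t + 1) u := by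
  classical
  have hf := mem_firing_of_pred F hc
  unfold step
  rcases u with j | (_ | v)
  · rw [hc _ hu]
    have hpos := outDeg_pulse_pos F j
    have hin : ((firingSet (pulse F) c).filter fun u => (pulse F).Adj u (Sum.inl j)).card
        = if (j : ℕ) = t + 1 then 1 else 0 := by
      split_ifs with hj
      · rw [Finset.card_eq_one]
        refine ⟨Sum.inl ⟨t, by omega⟩, ?_⟩
        ext w
        rw [Finset.mem_filter, hf, Finset.mem_singleton]
        rcases w with i | (_ | w)
        · simp only [Fires, pulse, Sum.inl.injEq, Fin.ext_iff]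
          omega
        · simp [Fires]
        · simp [pulse]
      · rw [Finset.card_eq_zero]
        ext w
        rw [Finset.mem_filter, hf]
        rcases w with i | (_ | w)
        · simp only [Fires, pulse]
          simp only [Finset.notMem_empty, iff_false, not_and]
          omega
        · simp [Fires]
        · simp [pulse]
    rw [hin]
    have hm : (Sum.inl j ∈ firingSet (pulse F) c) ↔ (j : ℕ) = t := by rw [hf]; rfl
    simp only [hm, pred]
    split_ifs <;> omega
  · exact absurd rfl hu
  · rw [hc _ hu]
    have hin : ((firingSet (pulse F) c).filter fun u => (pulse F).Adj u (Sum.inr (some v))).card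
        = if InF F (t + 1) v then 1 else 0 := by
      split_ifs with hj
      · obtain ⟨j, hj1, hj2⟩ := hj
        rw [Finset.card_eq_one]
        refine ⟨Sum.inl ⟨t, by omega⟩, ?_⟩
        ext w
        rw [Finset.mem_filter, hf, Finset.mem_singleton]
        rcases w with i | (_ | w)
        · simp only [Fires, pulse, Sum.inl.injEq, Fin.ext_iff]
          constructor
          · rintro ⟨h1, -⟩; exact h1
          · intro h1
            exact ⟨h1, ⟨j, by omega, hj2⟩⟩
        · simp [Fires]
        · simp [pulse]
      · rw [Finset.card_eq_zero]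
        ext w
        rw [Finset.mem_filter, hf]
        rcases w with i | (_ | w)
        · simp only [Fires, pulse, Finset.notMem_empty, iff_false, not_and]
          intro h1 h2
          rw [h1] at h2
          exact hj h2
        · simp [Fires]
        · simp [pulse]
    rw [hin]
    have hm : (Sum.inr (some v) ∈ firingSet (pulse F) c) ↔ InF F t v := by rw [hf]; rfl
    simp only [hm, pred, outDeg_target]
    by_cases h1 : InF F t v <;> simp [h1]

theorem conf_pred (t : ℕ) (u : PV T k) (hu : u ≠ Sum.inr none) :
    conf (pulse F) (pred F 0) t u = pred F t u := by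
  induction t generalizing u with
  | zero => rfl
  | succ t ih =>
    unfold conf
    rw [Function.iterate_succ_apply']
    exact step_pred F (fun u hu => ih u hu) u hu

theorem mem_firing (t : ℕ) (u : PV T k) :
    u ∈ firingSet (pulse F) (conf (pulse F) (pred F 0) t) ↔ Fires F t u :=
  mem_firing_of_pred F (fun u hu => conf_pred F t u hu) u

omit [Fintype T] in
theorem pulse_connected : (pulse F).toSimpleGraphInclusive.Connected := by
  have key : ∀ u : PV T k, (pulse F).toSimpleGraphInclusive.Reachable u (Sum.inr none) := by
    have hpulse : ∀ n : ℕ, ∀ j : Fin (k + 1), (j : ℕ) + n = k →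
        (pulse F).toSimpleGraphInclusive.Reachable (Sum.inl j) (Sum.inr none) := by
      intro n
      induction n with
      | zero =>
        intro j hj
        apply SimpleGraph.Adj.reachable
        rw [Digraph.toSimpleGraphInclusive, SimpleGraph.fromRel_adj]
        exact ⟨by simp, Or.inl (by simpa [pulse] using hj)⟩
      | succ n ih =>
        intro j hj
        have h1 := ih ⟨(j : ℕ) + 1, by omega⟩ (by simp; omega)
        refine SimpleGraph.Reachable.trans (SimpleGraph.Adj.reachable ?_) h1
        rw [Digraph.toSimpleGraphInclusive, SimpleGraph.fromRel_adj]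
        refine ⟨?_, Or.inl (by simp [pulse])⟩
        intro h
        have := congrArg (fun x : PV T k => match x with | Sum.inl i => (i : ℕ) | _ => 0) h
        simp at this
    intro u
    rcases u with j | (_ | v)
    · exact hpulse (k - j) j (by omega)
    · exact SimpleGraph.Reachable.refl _
    · apply SimpleGraph.Adj.reachable
      rw [Digraph.toSimpleGraphInclusive, SimpleGraph.fromRel_adj]
      exact ⟨by simp, Or.inl (by simp [pulse])⟩
  rw [SimpleGraph.connected_iff_exists_forall_reachable]
  exact ⟨Sum.inr none, fun w => (key w).symm⟩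

omit [Fintype T] in
theorem pulse_loopless (v : PV T k) : ¬ (pulse F).Adj v v := by
  rcases v with j | (_ | v) <;> simp [pulse]

/-- The polyhedron with facets `F i`. -/
def cx {ι : Type} (F : ι → Finset T) : Set (T → ℝ) :=
  {x | (∀ v, 0 ≤ x v) ∧ ∑ v, x v = 1 ∧ ∃ i, ∀ v, x v ≠ 0 → v ∈ F i}

/-- The geometric realisation of the avalanche complex of the pulse-path digraph. -/
abbrev RA : Set (PV T k → ℝ) := realization (avalancheComplex (pulse F) (pred F 0))

theorem mem_RA (x : PV T k → ℝ) : x ∈ RA F ↔
    (∀ v, 0 ≤ x v) ∧ ∑ v, x v = 1 ∧ ∃ t, ∀ u, x u ≠ 0 → Fires F t u := by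
  classical
  unfold RA realization
  rw [Set.mem_ofPred_eq]
  refine and_congr_right fun _ => and_congr_right fun hsum => ?_
  rw [mem_avalancheComplex]
  constructor
  · rintro ⟨-, t, ht⟩
    refine ⟨t, fun u hu => ?_⟩
    rw [← mem_firing F t u]
    apply ht
    simpa using hu
  · rintro ⟨t, ht⟩
    refine ⟨?_, t, ?_⟩
    · by_contra hne
      rw [Finset.not_nonempty_iff_eq_empty] at hne
      have : ∑ v, x v = 0 := by
        apply Finset.sum_eq_zero
        intro v _
        by_contra hv
        have : v ∈ (∅ : Finset (PV T k)) := by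
          rw [← hne]
          simpa using hv
        simp at this
      rw [this] at hsum
      exact zero_ne_one hsum
    · intro u hu
      rw [mem_firing F t u]
      apply ht
      simpa using hu

/-- Inclusion of the target complex. -/
def incl (x : T → ℝ) : PV T k → ℝ
  | Sum.inl _ => 0
  | Sum.inr none => 0
  | Sum.inr (some v) => x v

open Classical in
/-- Retraction: the mass of the pulse vertex `p_j` is moved to the target vertex `w j`. -/
noncomputable def retr (w : Fin (k + 1) → T) (x : PV T k → ℝ) : T → ℝ := fun v =>
  x (Sum.inr (some v)) + ∑ j, if w j = v then x (Sum.inl j) else 0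

theorem incl_mem {x : T → ℝ} (hx : x ∈ cx F) : incl (k := k) x ∈ RA F := by
  rw [mem_RA]
  obtain ⟨h0, h1, j, hj⟩ := hx
  refine ⟨?_, ?_, (j : ℕ), ?_⟩
  · rintro (i | (_ | v)) <;> simp [incl, h0]
  · simpa [Fintype.sum_sum_type, Fintype.sum_option, incl] using h1
  · rintro (i | (_ | v)) hu
    · simp [incl] at hu
    · simp [incl] at hu
    · exact ⟨j, rfl, hj v hu⟩

theorem sum_retr (w : Fin (k + 1) → T) (x : PV T k → ℝ) (hs : x (Sum.inr none) = 0) :
    ∑ v, retr w x v = ∑ u, x u := by
  classical
  simp only [retr, Finset.sum_add_distrib]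
  rw [Finset.sum_comm]
  simp [Fintype.sum_sum_type, Fintype.sum_option, hs, add_comm]

theorem retr_mem (w : Fin (k + 1) → T) (hw : ∀ j, w j ∈ F j) {x : PV T k → ℝ} (hx : x ∈ RA F) :
    retr w x ∈ cx F := by
  classical
  rw [mem_RA] at hx
  obtain ⟨h0, h1, t, ht⟩ := hx
  have hsink : x (Sum.inr none) = 0 := by
    by_contra h
    exact ht _ h
  have hpos : ∀ v, 0 ≤ retr w x v := by
    intro v
    unfold retr
    refine add_nonneg (h0 _) (Finset.sum_nonneg fun j _ => ?_)
    split_ifs
    · exact h0 _
    · exact le_rfl
  have hsum : ∑ v, retr w x v = 1 := by rw [sum_retr w x hsink, h1]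
  -- the time `t` is at most `k`
  obtain ⟨u, hu⟩ : ∃ u, x u ≠ 0 := by
    by_contra hcon
    push Not at hcon
    have : ∑ v, x v = 0 := Finset.sum_eq_zero fun v _ => hcon v
    rw [this] at h1
    exact zero_ne_one h1
  have htk : t < k + 1 := by
    have := ht u hu
    rcases u with j | (_ | v)
    · have h2 : (j : ℕ) = t := this
      omega
    · exact this.elim
    · obtain ⟨j, hj, -⟩ := this
      omega
  refine ⟨hpos, hsum, ⟨t, htk⟩, ?_⟩
  intro v hv
  unfold retr at hv
  by_cases h2 : x (Sum.inr (some v)) = 0
  · rw [h2, zero_add] at hv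
    obtain ⟨j, -, hj⟩ := Finset.exists_ne_zero_of_sum_ne_zero hv
    split_ifs at hj with hwj
    · have h3 : (j : ℕ) = t := ht _ hj
      have h4 : j = ⟨t, htk⟩ := Fin.ext h3
      rw [← hwj, ← h4]
      exact hw j
    · exact absurd rfl hj
  · obtain ⟨j, hj, hvj⟩ := ht _ h2
    have h4 : j = ⟨t, htk⟩ := Fin.ext hj
    rw [← h4]
    exact hvj

omit [Fintype T] in
theorem retr_incl (w : Fin (k + 1) → T) (x : T → ℝ) : retr w (incl (k := k) x) = x := by
  ext v
  simp [retr, incl]

omit [Fintype T] in
theorem continuous_incl : Continuous (incl (T := T) (k := k)) := by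
  apply continuous_pi
  rintro (i | (_ | v))
  · exact continuous_const
  · exact continuous_const
  · exact continuous_apply v

omit [Fintype T] in
theorem continuous_retr (w : Fin (k + 1) → T) : Continuous (retr w) := by
  classical
  apply continuous_pi
  intro v
  unfold retr
  refine (continuous_apply _).add (continuous_finsetSum _ fun j _ => ?_)
  split_ifs
  · exact continuous_apply _
  · exact continuous_const

/-- The straight-line homotopy stays inside the realisation. -/
theorem segment_mem (w : Fin (k + 1) → T) (hw : ∀ j, w j ∈ F j) {x : PV T k → ℝ} (hx : x ∈ RA F)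
    (s : ℝ) (hs0 : 0 ≤ s) (hs1 : s ≤ 1) :
    (fun u => (1 - s) * incl (k := k) (retr w x) u + s * x u) ∈ RA F := by
  classical
  have hr := incl_mem F (retr_mem F w hw hx)
  rw [mem_RA] at hr
  have hx' := hx
  rw [mem_RA] at hx' ⊢
  obtain ⟨h0, h1, t, ht⟩ := hx'
  refine ⟨?_, ?_, t, ?_⟩
  · intro u
    exact add_nonneg (mul_nonneg (by linarith) (hr.1 u)) (mul_nonneg hs0 (h0 u))
  · rw [Finset.sum_add_distrib, ← Finset.mul_sum, ← Finset.mul_sum, hr.2.1, h1]
    ring
  · intro u hu
    by_cases hxu : x u = 0
    · rw [hxu, mul_zero, add_zero] at hu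
      have h5 : incl (k := k) (retr w x) u ≠ 0 := right_ne_zero_of_mul hu
      rcases u with i | (_ | v)
      · simp [incl] at h5
      · simp [incl] at h5
      · have h6 : retr w x v ≠ 0 := h5
        unfold retr at h6
        rw [hxu, zero_add] at h6
        obtain ⟨j, -, hj⟩ := Finset.exists_ne_zero_of_sum_ne_zero h6
        split_ifs at hj with hwj
        · have h3 : (j : ℕ) = t := ht _ hj
          exact ⟨j, h3, hwj ▸ hw j⟩
        · exact absurd rfl hj
    · exact ht u hxu

/-- The avalanche complex of the pulse-path digraph collapses to the target complex. -/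
noncomputable def heq (w : Fin (k + 1) → T) (hw : ∀ j, w j ∈ F j) :
    ContinuousMap.HomotopyEquiv (RA F) (cx F) where
  toFun := ⟨fun x => ⟨retr w x.1, retr_mem F w hw x.2⟩,
    Continuous.subtype_mk ((continuous_retr w).comp continuous_subtype_val) _⟩
  invFun := ⟨fun x => ⟨incl x.1, incl_mem F x.2⟩,
    Continuous.subtype_mk (continuous_incl.comp continuous_subtype_val) _⟩
  left_inv := ⟨{
    toFun := fun p => ⟨fun u => (1 - (p.1 : ℝ)) * incl (k := k) (retr w p.2.1) u + p.1 * p.2.1 u,
      segment_mem F w hw p.2.2 p.1 p.1.2.1 p.1.2.2⟩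
    continuous_toFun := by
      apply Continuous.subtype_mk
      apply continuous_pi
      intro u
      have h1 : Continuous fun p : unitInterval × RA F => ((p.1 : ℝ)) :=
        continuous_subtype_val.comp continuous_fst
      have h2 : Continuous fun p : unitInterval × RA F => (p.2.1 : PV T k → ℝ) :=
        continuous_subtype_val.comp continuous_snd
      have h3 : Continuous fun p : unitInterval × RA F => incl (k := k) (retr w p.2.1) u :=
        (continuous_apply u).comp (continuous_incl.comp ((continuous_retr w).comp h2))
      exact ((continuous_const.sub h1).mul h3).add (h1.mul ((continuous_apply u).comp h2))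
    map_zero_left := by
      intro x
      apply Subtype.ext
      funext u
      simp
    map_one_left := by
      intro x
      apply Subtype.ext
      funext u
      simp }⟩
  right_inv := by
    have : (⟨fun x => ⟨retr w x.1, retr_mem F w hw x.2⟩,
        Continuous.subtype_mk ((continuous_retr w).comp continuous_subtype_val) _⟩ :
          C(RA F, cx F)).comp (⟨fun x => ⟨incl x.1, incl_mem F x.2⟩,
        Continuous.subtype_mk (continuous_incl.comp continuous_subtype_val) _⟩ : C(cx F, RA F))
        = ContinuousMap.id _ := by
      ext1 x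
      apply Subtype.ext
      exact retr_incl w x.1
    rw [this]

end Construction

/-! ### Spheres as boundaries of simplices -/

section Spheres

variable {d : ℕ}

/-- Extension of `y` by a coordinate `0` at `none`. -/
def ext0 (y : EuclideanSpace ℝ (Fin (d + 1))) : Option (Fin (d + 1)) → ℝ
  | none => 0
  | some j => y j

/-- Minimum of the extended coordinates. -/
noncomputable def mn (y : EuclideanSpace ℝ (Fin (d + 1))) : ℝ :=
  Finset.univ.inf' ⟨none, Finset.mem_univ _⟩ (ext0 y)

/-- Normalising factor. -/
noncomputable def tot (y : EuclideanSpace ℝ (Fin (d + 1))) : ℝ := ∑ o, (ext0 y o - mn y)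

/-- The map from the sphere to the boundary of the simplex with vertex set
`Option (Fin (d+1))`. -/
noncomputable def bar (y : EuclideanSpace ℝ (Fin (d + 1))) (o : Option (Fin (d + 1))) : ℝ :=
  (ext0 y o - mn y) / tot y

theorem mn_le (y : EuclideanSpace ℝ (Fin (d + 1))) (o : Option (Fin (d + 1))) :
    mn y ≤ ext0 y o := Finset.inf'_le _ (Finset.mem_univ _)

theorem exists_mn (y : EuclideanSpace ℝ (Fin (d + 1))) : ∃ o, ext0 y o = mn y := by
  obtain ⟨o, -, ho⟩ := Finset.exists_mem_eq_inf' (s := (Finset.univ : Finset (Option (Fin (d + 1)))))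
    ⟨none, Finset.mem_univ _⟩ (ext0 y)
  exact ⟨o, ho.symm⟩

theorem tot_pos {y : EuclideanSpace ℝ (Fin (d + 1))} (hy : y ≠ 0) : 0 < tot y := by
  unfold tot
  have h0 : ∀ o ∈ (Finset.univ : Finset (Option (Fin (d + 1)))), 0 ≤ ext0 y o - mn y :=
    fun o _ => sub_nonneg.2 (mn_le y o)
  rcases (Finset.sum_nonneg h0).lt_or_eq with h | h
  · exact h
  · exfalso
    rw [eq_comm, Finset.sum_eq_zero_iff_of_nonneg h0] at h
    have h1 : (0 : ℝ) - mn y = 0 := h none (Finset.mem_univ _)
    apply hy
    ext j
    have h2 : y j - mn y = 0 := h (some j) (Finset.mem_univ _)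
    simp only [PiLp.zero_apply]
    linarith

theorem bar_nonneg {y : EuclideanSpace ℝ (Fin (d + 1))} (hy : y ≠ 0)
    (o : Option (Fin (d + 1))) : 0 ≤ bar y o :=
  div_nonneg (sub_nonneg.2 (mn_le y o)) (tot_pos hy).le

theorem sum_bar {y : EuclideanSpace ℝ (Fin (d + 1))} (hy : y ≠ 0) : ∑ o, bar y o = 1 := by
  unfold bar
  rw [← Finset.sum_div]
  exact div_self (tot_pos hy).ne'

theorem exists_bar_zero (y : EuclideanSpace ℝ (Fin (d + 1))) : ∃ o, bar y o = 0 := by
  obtain ⟨o, ho⟩ := exists_mn y
  exact ⟨o, by unfold bar; rw [ho, sub_self, zero_div]⟩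

theorem bar_inj {y y' : EuclideanSpace ℝ (Fin (d + 1))} (hy : ‖y‖ = 1) (hy' : ‖y'‖ = 1)
    (h : bar y = bar y') : y = y' := by
  have hne : y ≠ 0 := by rintro rfl; simp at hy
  have hne' : y' ≠ 0 := by rintro rfl; simp at hy'
  have ht := tot_pos hne
  have ht' := tot_pos hne'
  have h0 : (0 - mn y) / tot y = (0 - mn y') / tot y' := congrFun h none
  have hs : y = (tot y / tot y') • y' := by
    ext j
    have hj : (y j - mn y) / tot y = (y' j - mn y') / tot y' := congrFun h (some j)
    simp only [PiLp.smul_apply, smul_eq_mul]
    have : y j / tot y = y' j / tot y' := by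
      have e1 : y j / tot y = (y j - mn y) / tot y - (0 - mn y) / tot y := by ring
      have e2 : y' j / tot y' = (y' j - mn y') / tot y' - (0 - mn y') / tot y' := by ring
      rw [e1, e2, hj, h0]
    field_simp at this ⊢
    linarith
  have hn : (tot y / tot y') = 1 := by
    have := congrArg norm hs
    rw [norm_smul, hy, hy', mul_one, Real.norm_of_nonneg (div_pos ht ht').le] at this
    exact this.symm
  rw [hn, one_smul] at hs
  exact hs

theorem bar_surj (x : Option (Fin (d + 1)) → ℝ) (h0 : ∀ o, 0 ≤ x o) (h1 : ∑ o, x o = 1)
    (o₀ : Option (Fin (d + 1))) (ho : x o₀ = 0) :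
    ∃ y : EuclideanSpace ℝ (Fin (d + 1)), ‖y‖ = 1 ∧ bar y = x := by
  set y₀ : EuclideanSpace ℝ (Fin (d + 1)) := WithLp.toLp 2 (fun j => x (some j) - x none) with hy₀
  have hy₀j : ∀ j, y₀ j = x (some j) - x none := fun j => rfl
  have hne : y₀ ≠ 0 := by
    intro h
    have h2 : ∀ o, x o = x none := by
      rintro (_ | j)
      · rfl
      · have : y₀ j = 0 := by rw [h]; rfl
        rw [hy₀j] at this
        linarith
    have h3 : ∀ o, x o = 0 := fun o => by rw [h2 o, ← h2 o₀, ho]
    simp [h3] at h1
  have hr : 0 < ‖y₀‖ := norm_pos_iff.2 hne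
  refine ⟨‖y₀‖⁻¹ • y₀, ?_, ?_⟩
  · rw [norm_smul, norm_inv, norm_norm, inv_mul_cancel₀ hr.ne']
  · have he : ∀ o, ext0 (‖y₀‖⁻¹ • y₀) o = (x o - x none) / ‖y₀‖ := by
      rintro (_ | j)
      · simp [ext0]
      · simp only [ext0, PiLp.smul_apply, smul_eq_mul, hy₀j]
        field_simp
    have hm : mn (‖y₀‖⁻¹ • y₀) = (0 - x none) / ‖y₀‖ := by
      apply le_antisymm
      · rw [← ho, ← he o₀]
        exact mn_le _ _
      · unfold mn
        apply Finset.le_inf'
        intro o _
        rw [he o]
        apply div_le_div_of_nonneg_right _ hr.le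
        have := h0 o
        linarith
    have hsub : ∀ o, ext0 (‖y₀‖⁻¹ • y₀) o - mn (‖y₀‖⁻¹ • y₀) = x o / ‖y₀‖ := by
      intro o
      rw [he, hm]
      ring
    have ht : tot (‖y₀‖⁻¹ • y₀) = 1 / ‖y₀‖ := by
      unfold tot
      simp only [hsub]
      rw [← Finset.sum_div, h1]
    ext o
    unfold bar
    rw [hsub, ht]
    field_simp

theorem bar_base : bar (d := d) (EuclideanSpace.single 0 1) = Pi.single (some 0) 1 := by
  have he : ∀ o, ext0 (d := d) (EuclideanSpace.single 0 1) o
      = (Pi.single (some 0) 1 : Option (Fin (d + 1)) → ℝ) o := by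
    rintro (_ | j)
    · simp [ext0]
    · by_cases hj : j = 0
      · subst hj; simp [ext0]
      · simp [ext0, hj]
  have hm : mn (d := d) (EuclideanSpace.single 0 1) = 0 := by
    apply le_antisymm
    · have := mn_le (d := d) (EuclideanSpace.single 0 1) none
      simpa [ext0] using this
    · unfold mn
      apply Finset.le_inf'
      intro o _
      rw [he]
      by_cases h : o = some 0
      · subst h; simp
      · simp [h]
  have ht : tot (d := d) (EuclideanSpace.single 0 1) = 1 := by
    unfold tot
    simp only [he, hm, sub_zero]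
    rw [Finset.sum_pi_single']
    simp
  ext o
  unfold bar
  rw [he, hm, ht]
  simp

theorem continuous_bar (o : Option (Fin (d + 1))) :
    Continuous fun y : Sph d => bar y.1 o := by
  have hext : ∀ o, Continuous fun y : Sph d => ext0 y.1 o := by
    rintro (_ | j)
    · exact continuous_const
    · exact (EuclideanSpace.proj (𝕜 := ℝ) j).continuous.comp continuous_subtype_val
  have hmn : Continuous fun y : Sph d => mn y.1 := by
    unfold mn
    exact Continuous.finset_inf'_apply _ (fun o _ => hext o)
  have htot : Continuous fun y : Sph d => tot y.1 := by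
    unfold tot
    exact continuous_finsetSum _ fun o _ => (hext o).sub hmn
  unfold bar
  refine ((hext o).sub hmn).div htot fun y => (tot_pos ?_).ne'
  intro h
  have := y.2
  rw [h] at this
  simp at this

theorem sph_norm (y : Sph d) : ‖y.1‖ = 1 := by simp

theorem sph_ne (y : Sph d) : y.1 ≠ 0 := by
  intro h
  have := sph_norm y
  rw [h] at this
  simp at this

end Spheres

/-! ### Wedges of spheres as simplicial complexes -/

section WedgeComplex

variable {m : ℕ} (d : Fin m → ℕ)

/-- Vertices of the simplicial wedge: one common vertex `none`, and `d i + 1` further vertices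
for the `i`-th sphere. -/
abbrev TV : Type := Option (Σ i : Fin m, Fin (d i + 1))

/-- The vertices of the `i`-th simplex. -/
def emb (i : Fin m) : Option (Fin (d i + 1)) → TV d
  | none => some ⟨i, 0⟩
  | some j => if j = 0 then none else some ⟨i, j⟩

theorem emb_injective (i : Fin m) : Function.Injective (emb d i) := by
  rintro (_ | j) (_ | j') h
  · rfl
  · simp only [emb] at h
    split_ifs at h with h0
    simp only [Option.some.injEq, Sigma.mk.injEq, heq_eq_eq, true_and] at h
    exact absurd h.symm h0
  · simp only [emb] at h
    split_ifs at h with h0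
    simp only [Option.some.injEq, Sigma.mk.injEq, heq_eq_eq, true_and] at h
    exact absurd h h0
  · simp only [emb] at h
    split_ifs at h with h0 h1 h1
    · rw [h0, h1]
    · simp only [Option.some.injEq, Sigma.mk.injEq, heq_eq_eq, true_and] at h
      rw [h]

theorem emb_ne {i i' : Fin m} (hi : i ≠ i') (o : Option (Fin (d i + 1)))
    (o' : Option (Fin (d i' + 1))) (h : emb d i o = emb d i' o') : o = some 0 := by
  rcases o with _ | j
  · rcases o' with _ | j'
    · simp only [emb, Option.some.injEq, Sigma.mk.injEq] at h
      exact absurd h.1 hi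
    · simp only [emb] at h
      split_ifs at h with h0
      simp only [Option.some.injEq, Sigma.mk.injEq] at h
      exact absurd h.1 hi
  · by_cases hj : j = 0
    · rw [hj]
    · rcases o' with _ | j'
      · simp only [emb, hj, if_false, Option.some.injEq, Sigma.mk.injEq] at h
        exact absurd h.1 hi
      · simp only [emb, hj, if_false] at h
        split_ifs at h with h0
        simp only [Option.some.injEq, Sigma.mk.injEq] at h
        exact absurd h.1 hi

theorem emb_base (i : Fin m) : emb d i (some 0) = none := by simp [emb]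

open Classical in
/-- Push a mass distribution on the `i`-th simplex to the wedge. -/
noncomputable def push (i : Fin m) (b : Option (Fin (d i + 1)) → ℝ) : TV d → ℝ := fun τ =>
  ∑ o, if emb d i o = τ then b o else 0

theorem push_emb (i : Fin m) (b : Option (Fin (d i + 1)) → ℝ) (o : Option (Fin (d i + 1))) :
    push d i b (emb d i o) = b o := by
  classical
  unfold push
  rw [Finset.sum_eq_single o]
  · simp
  · intro o' _ hne
    rw [if_neg]
    intro h
    exact hne (emb_injective d i h)
  · intro h
    exact absurd (Finset.mem_univ _) h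

theorem push_eq_zero (i : Fin m) (b : Option (Fin (d i + 1)) → ℝ) (τ : TV d)
    (h : ∀ o, emb d i o ≠ τ) : push d i b τ = 0 := by
  classical
  unfold push
  apply Finset.sum_eq_zero
  intro o _
  rw [if_neg (h o)]

theorem sum_push (i : Fin m) (b : Option (Fin (d i + 1)) → ℝ) :
    ∑ τ, push d i b τ = ∑ o, b o := by
  classical
  unfold push
  rw [Finset.sum_comm]
  simp

open Classical in
/-- The facets of the simplicial wedge. -/
noncomputable def facet : Option (Σ i : Fin m, Option (Fin (d i + 1))) → Finset (TV d)
  | none => {none}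
  | some ⟨i, o⟩ => Finset.univ.filter fun τ => ∃ o', o' ≠ o ∧ emb d i o' = τ

theorem facet_nonempty (a : Option (Σ i : Fin m, Option (Fin (d i + 1)))) :
    (facet d a).Nonempty := by
  classical
  rcases a with _ | ⟨i, o⟩
  · exact ⟨none, by simp [facet]⟩
  · rcases o with _ | j
    · refine ⟨emb d i (some 0), ?_⟩
      simp only [facet, Finset.mem_filter, Finset.mem_univ, true_and]
      exact ⟨some 0, by simp, rfl⟩
    · refine ⟨emb d i none, ?_⟩
      simp only [facet, Finset.mem_filter, Finset.mem_univ, true_and]
      exact ⟨none, by simp, rfl⟩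

open Classical in
/-- The map from the disjoint union of a point and the spheres to the simplicial wedge. -/
noncomputable def phi : PreWedge d → (TV d → ℝ)
  | Sum.inl _ => Pi.single none 1
  | Sum.inr ⟨i, y⟩ => push d i (bar y.1)

theorem phi_base (i : Fin m) : phi d (Sum.inr ⟨i, basePt (d i)⟩) = phi d (Sum.inl ()) := by
  classical
  funext τ
  simp only [phi, basePt]
  rw [bar_base]
  by_cases h : ∃ o, emb d i o = τ
  · obtain ⟨o, rfl⟩ := h
    rw [push_emb]
    by_cases ho : o = some 0
    · subst ho
      rw [emb_base]
      simp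
    · have : emb d i o ≠ none := by
        intro h
        rw [← emb_base d i] at h
        exact ho (emb_injective d i h)
      simp [ho, this]
  · push Not at h
    rw [push_eq_zero _ _ _ _ h]
    have : τ ≠ none := by
      intro h1
      exact h (some 0) (by rw [emb_base, h1])
    simp [this]

theorem phi_mem (a : PreWedge d) : phi d a ∈ cx (facet d) := by
  classical
  rcases a with u | ⟨i, y⟩
  · refine ⟨?_, ?_, none, ?_⟩
    · intro v
      simp only [phi]
      by_cases h : v = none
      · subst h; simp
      · simp [h]
    · simp [phi]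
    · intro v hv
      simp only [phi] at hv
      by_contra h
      apply hv
      have : v ≠ none := by
        intro h1
        subst h1
        exact h (by simp [facet])
      simp [this]
  · obtain ⟨o, ho⟩ := exists_bar_zero y.1
    refine ⟨?_, ?_, some ⟨i, o⟩, ?_⟩
    · intro v
      simp only [phi, push]
      apply Finset.sum_nonneg
      intro o' _
      split_ifs
      · exact bar_nonneg (sph_ne y) o'
      · exact le_rfl
    · simp only [phi]
      rw [sum_push, sum_bar (sph_ne y)]
    · intro v hv
      simp only [phi] at hv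
      by_cases h : ∃ o', emb d i o' = v
      · obtain ⟨o', rfl⟩ := h
        rw [push_emb] at hv
        simp only [facet, Finset.mem_filter, Finset.mem_univ, true_and]
        refine ⟨o', ?_, rfl⟩
        rintro rfl
        exact hv ho
      · push Not at h
        exact absurd (push_eq_zero _ _ _ _ h) hv

theorem continuous_phi : Continuous (phi d) := by
  classical
  rw [continuous_sum_dom]
  constructor
  · exact continuous_const
  · rw [continuous_sigma_iff]
    intro i
    apply continuous_pi
    intro τ
    simp only [Function.comp_def, phi, push]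
    refine continuous_finsetSum _ fun o _ => ?_
    split_ifs
    · exact continuous_bar o
    · exact continuous_const

/-- If all the mass of `bar y` sits at the base vertex, then `y` is the base point. -/
theorem eq_base_of_bar {i : Fin m} (y : Sph (d i)) (h : ∀ o, o ≠ some 0 → bar y.1 o = 0) :
    y = basePt (d i) := by
  apply Subtype.ext
  apply bar_inj (sph_norm y) (sph_norm (basePt (d i)))
  change bar y.1 = bar (EuclideanSpace.single 0 1)
  rw [bar_base]
  funext o
  by_cases ho : o = some 0
  · subst ho
    have h1 := sum_bar (sph_ne y)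
    rw [Finset.sum_eq_single (some 0) (fun o _ ho => h o ho)
      (fun h => absurd (Finset.mem_univ _) h)] at h1
    simp [h1]
  · rw [h o ho]
    simp [ho]

theorem phi_eq_iff (a b : PreWedge d) : phi d a = phi d b ↔ (wedgeSetoid d).r a b := by
  classical
  constructor
  · intro h
    have key : ∀ (i : Fin m) (y : Sph (d i)), phi d (Sum.inr ⟨i, y⟩) = phi d (Sum.inl ()) →
        y = basePt (d i) := by
      intro i y h
      apply eq_base_of_bar
      intro o ho
      have h1 := congrFun h (emb d i o)
      simp only [phi] at h1
      rw [push_emb] at h1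
      rw [h1]
      have : emb d i o ≠ none := by
        intro h
        rw [← emb_base d i] at h
        exact ho (emb_injective d i h)
      simp [this]
    rcases a with u | ⟨i, y⟩
    · rcases b with u' | ⟨i', y'⟩
      · exact Or.inl rfl
      · exact Or.inr ⟨trivial, key i' y' h.symm⟩
    · rcases b with u' | ⟨i', y'⟩
      · exact Or.inr ⟨key i y h, trivial⟩
      · by_cases hi : i = i'
        · subst hi
          left
          have : y = y' := by
            apply Subtype.ext
            apply bar_inj (sph_norm y) (sph_norm y')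
            funext o
            have h1 := congrFun h (emb d i o)
            simp only [phi] at h1
            rwa [push_emb, push_emb] at h1
          rw [this]
        · right
          constructor
          · apply eq_base_of_bar
            intro o ho
            have h1 := congrFun h (emb d i o)
            simp only [phi] at h1
            rw [push_emb] at h1
            rw [h1]
            apply push_eq_zero
            intro o' h2
            exact ho (emb_ne d hi o o' h2.symm)
          · apply eq_base_of_bar
            intro o ho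
            have h1 := congrFun h (emb d i' o)
            simp only [phi] at h1
            rw [push_emb] at h1
            rw [← h1]
            apply push_eq_zero
            intro o' h2
            exact ho (emb_ne d (Ne.symm hi) o o' h2.symm)
  · have hb : ∀ c, IsBase d c → phi d c = phi d (Sum.inl ()) := by
      rintro (u | ⟨i, y⟩) hc
      · rfl
      · have hc' : y = basePt (d i) := hc
        rw [hc']
        exact phi_base d i
    rintro (rfl | ⟨ha, hb'⟩)
    · rfl
    · rw [hb a ha, hb b hb']

theorem phi_surj (x : TV d → ℝ) (hx : x ∈ cx (facet d)) : ∃ a, phi d a = x := by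
  classical
  obtain ⟨h0, h1, a, ha⟩ := hx
  rcases a with _ | ⟨i, o⟩
  · refine ⟨Sum.inl (), ?_⟩
    have h2 : ∀ v, v ≠ none → x v = 0 := by
      intro v hv
      by_contra h
      have := ha v h
      simp only [facet, Finset.mem_singleton] at this
      exact hv this
    funext v
    simp only [phi]
    by_cases hv : v = none
    · subst hv
      rw [Finset.sum_eq_single none (fun v _ hv => h2 v hv)
        (fun h => absurd (Finset.mem_univ _) h)] at h1
      simp [h1]
    · rw [h2 v hv]
      simp [hv]
  · have h2 : ∀ v, x v ≠ 0 → ∃ o', o' ≠ o ∧ emb d i o' = v := by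
      intro v hv
      have := ha v hv
      simpa only [facet, Finset.mem_filter, Finset.mem_univ, true_and] using this
    have hpush : push d i (fun o' => x (emb d i o')) = x := by
      funext v
      by_cases h : ∃ o', emb d i o' = v
      · obtain ⟨o', rfl⟩ := h
        rw [push_emb]
      · push Not at h
        rw [push_eq_zero _ _ _ _ h]
        by_contra hne
        obtain ⟨o', -, ho'⟩ := h2 v (Ne.symm hne)
        exact h o' ho'
    obtain ⟨y, hy, hbar⟩ := bar_surj (fun o' => x (emb d i o')) (fun o' => h0 _)
      (by rw [← sum_push, hpush, h1]) o (by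
        by_contra hne
        obtain ⟨o', ho', ho''⟩ := h2 _ hne
        exact ho' (emb_injective d i ho''))
    refine ⟨Sum.inr ⟨i, ⟨y, by simpa using hy⟩⟩, ?_⟩
    simp only [phi]
    rw [hbar, hpush]

instance : CompactSpace (Wedge d) :=
  inferInstanceAs (CompactSpace (Quotient (wedgeSetoid d)))

/-- The wedge of spheres is homeomorphic to the simplicial wedge. -/
noncomputable def wedgeHomeo : Wedge d ≃ₜ cx (facet d) := by
  let f : Wedge d → cx (facet d) :=
    Quotient.lift (fun a => (⟨phi d a, phi_mem d a⟩ : cx (facet d)))
      (fun a b h => Subtype.ext ((phi_eq_iff d a b).2 h))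
  have hf : Continuous f := by
    apply Continuous.quotient_lift
    exact Continuous.subtype_mk (continuous_phi d) _
  have hbij : Function.Bijective f := by
    constructor
    · intro a b
      induction a using Quotient.inductionOn
      induction b using Quotient.inductionOn
      intro h
      apply Quotient.sound
      exact (phi_eq_iff d _ _).1 (congrArg Subtype.val h)
    · rintro ⟨x, hx⟩
      obtain ⟨a, ha⟩ := phi_surj d x hx
      exact ⟨Quotient.mk _ a, Subtype.ext ha⟩
  exact Continuous.homeoOfEquivCompactToT2 (f := Equiv.ofBijective f hbij) hf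

end WedgeComplex

/-- **Every wedge of spheres is an avalanche complex.** For every finite wedge of spheres
`S^(d 0) ∨ ⋯ ∨ S^(d (m-1))` (`m ≥ 0`, `d i ≥ 0`; a point if `m = 0`) there are a finite loopless
weakly connected digraph `G` and a configuration `c₀` such that the geometric realisation of the
avalanche complex of `(G, c₀)` is homotopy equivalent to the wedge. -/
theorem result : ∀ (m : ℕ) (d : Fin m → ℕ),
    ∃ (V : Type) (_ : Fintype V) (G : Digraph V) (c₀ : V → ℕ),
      (∀ v, ¬ G.Adj v v) ∧ G.toSimpleGraphInclusive.Connected ∧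
      Nonempty (ContinuousMap.HomotopyEquiv (realization (avalancheComplex G c₀)) (Wedge d)) := by
  intro m d
  classical
  let ι := Option (Σ i : Fin m, Option (Fin (d i + 1)))
  obtain ⟨k, hk⟩ : ∃ k, Fintype.card ι = k + 1 :=
    ⟨Fintype.card ι - 1, by have : 0 < Fintype.card ι := Fintype.card_pos; omega⟩
  let e : ι ≃ Fin (k + 1) := Fintype.equivFinOfCardEq hk
  let F : Fin (k + 1) → Finset (TV d) := fun j => facet d (e.symm j)
  have hw : ∀ j, ∃ v, v ∈ F j := fun j => facet_nonempty d _
  choose w hw using hw
  have hcx : cx F = cx (facet d) := by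
    ext x
    refine and_congr_right fun _ => and_congr_right fun _ => ?_
    constructor
    · rintro ⟨j, hj⟩
      exact ⟨e.symm j, hj⟩
    · rintro ⟨a, ha⟩
      refine ⟨e a, ?_⟩
      simpa [F] using ha
  refine ⟨PV (TV d) k, inferInstance, pulse F, pred F 0, pulse_loopless F, pulse_connected F, ?_⟩
  have h1 : ContinuousMap.HomotopyEquiv (RA F) (cx F) := heq F w hw
  have h2 : cx F ≃ₜ cx (facet d) := Homeomorph.setCongr hcx
  exact ⟨h1.trans (h2.trans (wedgeHomeo d).symm).toHomotopyEquiv⟩

end Pool.Agent.Results.MP_fb4947_gt.WedgeRealization
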